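import Mathlib
import Pool.Agent.N534.HC.Cub

/-!
# Random elliptic curves over `ℚ`, over an arbitrary number field `K`: the limit law up to the edge

The setting is that of `MP_bf9450_nt.BaseChangeNearTheEdge`: `K` is any number field, `E_c : y² = x³ + A(c) x + B(c)` with weighted homogeneous
polynomials `A`, `B` over `ℤ` of degrees `2 m` and `3 m`, `m` odd (all elliptic curves over `ℚ`, all quadratic twists of one curve, `y² = x³ + b`, ...), and
`L(E_c/K, s)` is the Euler product over the places of `K` above the primes `p` at which all `v ∣ p` are good.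

The theorem: for finitely many points `s_k` with `Re s_k ≥ 3/2` (on the edge allowed) and any points `σ_k(H) → s_k` with
`(Re σ_k(H) - 3/2) log H → ∞`, the joint distribution of the numbers `L(E_c/K, σ_k(H))`, `c` in the box `|c_j| ≤ H`, converges to the joint distribution of
the values `exp (Z_k)` of the random Euler product over `K` at the points `s_k`: the residue classes of `c` modulo the primes are independent and
uniform, and `Z_k` is the limit in the mean of the logarithms of the partial products over the places above the primes `p ≤ z`. In particular there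
is no mass at `0` and infinity in the limit: poles (excluded by Q1) and zeros on the edge do not show up.
Nothing about continuation is assumed or proved.
-/

set_option autoImplicit false

open NumberField IsDedekindDomain Polynomial MeasureTheory Filter Topology

namespace Pool.Agent.Results.MP_bf9450_nt.BaseChangeLimitLaw

section
variable {K : Type} [Field K] [NumberField K]

/-- Number of affine points of `y² = g(x)` with coordinates in the extension of degree `m` of the finite field `k`, i.e. the field of the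
elements of the algebraic closure of `k` which are fixed by the `m`-th power of the Frobenius of `k`. -/
noncomputable def affineCount (k : Type) [Field k] (g : k[X]) (m : ℕ) : ℕ :=
  Nat.card {P : AlgebraicClosure k × AlgebraicClosure k //
    P.1 ^ (Nat.card k ^ m) = P.1 ∧ P.2 ^ (Nat.card k ^ m) = P.2 ∧ P.2 ^ 2 = aeval P.1 g}

/-- `α^m + β^m` for the eigenvalues `α, β` of the Frobenius at `v`: `q^m + 1` minus the number of points over the field with `q^m` elements
(one of them is at infinity), `q = N v`. -/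
noncomputable def trace (f : (𝓞 K)[X]) (v : HeightOneSpectrum (𝓞 K)) (m : ℕ) : ℝ :=
  haveI : v.asIdeal.IsMaximal := v.isMaximal
  letI : Field (𝓞 K ⧸ v.asIdeal) := Ideal.Quotient.field v.asIdeal
  ((Ideal.absNorm v.asIdeal : ℕ) : ℝ) ^ m - (affineCount (𝓞 K ⧸ v.asIdeal) (f.map (Ideal.Quotient.mk v.asIdeal)) m : ℝ)

/-- Good reduction of `y² = f(x)`: `v` does not divide `2` and the reduction of `f` is separable. -/
def Good (f : (𝓞 K)[X]) (v : HeightOneSpectrum (𝓞 K)) : Prop :=
  (2 : 𝓞 K) ∉ v.asIdeal ∧ (f.map (Ideal.Quotient.mk v.asIdeal)).Separable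

open Classical in
/-- The sum over the places `v` above `p`, of residue degree `f_v` dividing `k`, of `f_v` times the local trace of the power `k / f_v`. -/
noncomputable def frobTrace (t : HeightOneSpectrum (𝓞 K) → ℕ → ℝ) (p k : ℕ) : ℝ :=
  ∑ᶠ v : {v : HeightOneSpectrum (𝓞 K) // (p : 𝓞 K) ∈ v.asIdeal},
    if Nat.log p (Ideal.absNorm v.1.asIdeal) ∣ k then
      (Nat.log p (Ideal.absNorm v.1.asIdeal) : ℝ) * t v.1 (k / Nat.log p (Ideal.absNorm v.1.asIdeal))
    else 0

open Classical in
/-- The logarithm `∑ (frobTrace t p k) p^{-ks} / k` of the product of the Euler factors at the places above `p`, for local traces `t`; it is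
omitted if one of these places is not good. -/
noncomputable def logFactor (t : HeightOneSpectrum (𝓞 K) → ℕ → ℝ) (G : HeightOneSpectrum (𝓞 K) → Prop)
    (s : ℂ) (p : ℕ) : ℂ :=
  if ∃ v : HeightOneSpectrum (𝓞 K), (p : 𝓞 K) ∈ v.asIdeal ∧ ¬ G v then 0 else
    ∑' k : ℕ, (frobTrace t p (k + 1) : ℂ) / ((k : ℂ) + 1) * (p : ℂ) ^ (-(((k : ℂ) + 1) * s))

/-- The L-function: the product of the Euler factors. -/
noncomputable def LSeries (t : HeightOneSpectrum (𝓞 K) → ℕ → ℝ) (G : HeightOneSpectrum (𝓞 K) → Prop) (s : ℂ) : ℂ :=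
  ∏' p : Nat.Primes, Complex.exp (logFactor t G s (p : ℕ))

/-- The curve `y² = x³ + A(c) x + B(c)`, as a polynomial over `𝓞 K`. -/
noncomputable def curve (K : Type) [Field K] [NumberField K] {J : Type} (A B : MvPolynomial J ℤ) (c : J → ℤ) : (𝓞 K)[X] :=
  X ^ 3 + C ((MvPolynomial.eval c A : ℤ) : 𝓞 K) * X + C ((MvPolynomial.eval c B : ℤ) : 𝓞 K)

variable {J : Type} [Fintype J] [DecidableEq J]

/-- The integer vectors with coordinates of absolute value at most `H`. -/
noncomputable def box (ι : Type) [Fintype ι] [DecidableEq ι] (H : ℕ) : Finset (ι → ℤ) :=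
  Fintype.piFinset fun _ => Finset.Icc (-(H : ℤ)) H

/-- Vectors of residue classes, one for each prime. -/
abbrev Residues (ι : Type) : Type := ∀ p : Nat.Primes, ι → ZMod (p : ℕ)

/-- The residue classes are independent and uniform. -/
noncomputable def uniform (ι : Type) [Fintype ι] [DecidableEq ι] : MeasureTheory.Measure (Residues ι) :=
  MeasureTheory.Measure.infinitePi fun p => (PMF.uniformOfFintype (ι → ZMod (p : ℕ))).toMeasure

/-- An integer vector in the residue class modulo `p`. -/
def lift {ι : Type} (x : Residues ι) (p : Nat.Primes) : ι → ℤ := fun i => ((x p i).val : ℤ)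

/-- The prime numbers up to `z`. -/
def primesUpTo (z : ℕ) : Finset Nat.Primes := (Finset.range (z + 1)).subtype Nat.Prime

/-- The logarithm of the random Euler product over the primes `p ≤ z`: the Euler factor at `p` is that of the member given by the
residue classes modulo `p`. -/
noncomputable def randomLog {ι : Type} (t : (ι → ℤ) → HeightOneSpectrum (𝓞 K) → ℕ → ℝ)
    (G : (ι → ℤ) → HeightOneSpectrum (𝓞 K) → Prop) (z : ℕ) (s : ℂ) (x : Residues ι) : ℂ :=
  ∑ p ∈ primesUpTo z, logFactor (t (lift x p)) (G (lift x p)) s (p : ℕ)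

/-- **The limit law of the L-functions of random rational elliptic curves over a number field `K`, up to the line `Re s = 3/2`.** -/
theorem result (A B : MvPolynomial J ℤ) (wt : J → ℕ) (m : ℕ) (hm : Odd m)
    (hA : ∀ (G : ℤ) (c : J → ℤ), MvPolynomial.eval (fun j => G ^ wt j * c j) A = G ^ (2 * m) * MvPolynomial.eval c A)
    (hB : ∀ (G : ℤ) (c : J → ℤ), MvPolynomial.eval (fun j => G ^ wt j * c j) B = G ^ (3 * m) * MvPolynomial.eval c B)
    (hAB : ∃ c : J → ℤ, 4 * (MvPolynomial.eval c A) ^ 3 + 27 * (MvPolynomial.eval c B) ^ 2 ≠ 0)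
    {κ : Type} [Fintype κ] (s : κ → ℂ) (hsk : ∀ k, 3 / 2 ≤ (s k).re) :
    ∃ Z : κ → Residues J → ℂ, (∀ k, Measurable (Z k)) ∧ (∀ k, Integrable (Z k) (uniform J)) ∧
      (∀ k, Tendsto (fun z : ℕ => ∫ x, ‖randomLog (fun c => trace (curve K A B c)) (fun c => Good (curve K A B c))
        z (s k) x - Z k x‖ ∂(uniform J)) atTop (𝓝 0)) ∧
      ∀ σ : ℕ → κ → ℂ, (∀ k, Tendsto (fun H => σ H k) atTop (𝓝 (s k))) →
        (∀ k, Tendsto (fun H : ℕ => ((σ H k).re - 3 / 2) * Real.log H) atTop atTop) →
        (∀ g : (κ → ℂ) → ℝ, Continuous g → (∃ C : ℝ, ∀ y, |g y| ≤ C) →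
          Tendsto (fun H : ℕ => (∑ c ∈ box J H, g (fun k => LSeries (trace (curve K A B c)) (Good (curve K A B c)) (σ H k))) /
            (box J H).card) atTop (𝓝 (∫ x, g (fun k => Complex.exp (Z k x)) ∂(uniform J)))) ∧
        (∀ E : Set (κ → ℂ), MeasurableSet E →
          uniform J {x | (fun k => Complex.exp (Z k x)) ∈ frontier E} = 0 →
          Tendsto (fun H : ℕ => (open Classical in ((box J H).filter
            (fun c => (fun k => LSeries (trace (curve K A B c)) (Good (curve K A B c)) (σ H k)) ∈ E)).card : ℝ) /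
              (box J H).card) atTop
            (𝓝 ((uniform J).real {x | (fun k => Complex.exp (Z k x)) ∈ E}))) := by
  set Φ : MvPolynomial (Option (Unit × ℕ)) ℝ := MvPolynomial.X (some ((), 0)) with hΦ
  set F : Unit → (MvPolynomial J (𝓞 K))[X] := fun _ => Pool.Agent.N534.HC.Cub.cub K A B with hF
  have hwt : Pool.Agent.N534.HC.HasWt Φ 1 :=
    (Pool.Agent.N534.HC.Inst.hasWt_iff _ _).2 (MvPolynomial.isWeightedHomogeneous_X ℝ _ (some ((), 0)))
  have hAdm : ∀ i, Pool.Agent.N534.HC.Adm (F i) := fun _ => Pool.Agent.N534.HC.Cub.adm_cub hAB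
  have hodd := Pool.Agent.N534.HC.Inst.oddMon_all (F := F) (wt := wt) (a := fun _ => m) (e := fun _ => 3 * m)
    (fun _ => Pool.Agent.N534.HC.Cub.scl_cub hA hB) (fun _ => (by decide : Odd 3).mul hm) hwt odd_one
  obtain ⟨D, hD⟩ := Pool.Agent.N534.HC.powH hwt hAdm hodd
  have hcmp := Pool.Agent.N534.HC.Inst.cmpH 1 Φ F
  have hdeg : ∀ (c : J → ℤ) (v : HeightOneSpectrum (𝓞 K)),
      ((curve K A B c).map (Ideal.Quotient.mk v.asIdeal)).natDegree = 3 := by
    intro c v
    unfold curve
    rw [Polynomial.map_add, Polynomial.map_add, Polynomial.map_mul, Polynomial.map_pow, Polynomial.map_X,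
      Polynomial.map_C, Polynomial.map_C]
    exact Pool.Agent.N534.HC.Cub.deg_cubic _ _
  have hmem : ∀ c : J → ℤ, Pool.Agent.N534.HC.mem (Pool.Agent.N534.HC.Cub.cub K A B) c = curve K A B c :=
    Pool.Agent.N534.HC.Cub.mem_cub A B
  have ht : (fun c : J → ℤ => trace (curve K A B c)) = Pool.Agent.N534.HC.Inst.tH Φ F := by
    funext c v k
    have h1 := Pool.Agent.N534.HC.Inst.trace_eq (curve K A B c) v k
    have h2 : Pool.Agent.N534.HC.Inst.tH Φ F c v k =
        ((Pool.Agent.N534.HC.Inst.trace (curve K A B c) v k : ℤ) : ℝ) := by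
      unfold Pool.Agent.N534.HC.Inst.tH Pool.Agent.N534.HC.chv
      rw [hΦ, MvPolynomial.eval_X, h1, ← hmem]
      change ((Pool.Agent.N534.HC.trv v _ (k * (0 + 1)) : ℤ) : ℝ) = _
      rw [zero_add, mul_one]
      rfl
    rw [h2]
    unfold Pool.Agent.N534.HC.Inst.trace trace Pool.Agent.N534.HC.Inst.infinityCount
    rw [hdeg, if_pos (by decide : Odd 3)]
    push_cast
    have h3 : ∀ (k : Type) [Field k] (g : k[X]) (m : ℕ), Pool.Agent.N534.HC.Inst.affineCount k g m = affineCount k g m :=
      fun _ _ _ _ => rfl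
    rw [h3]
    ring
  have hg : (fun (c : J → ℤ) => Good (curve K A B c)) = Pool.Agent.N534.HC.Inst.gH F := by
    funext c v
    apply propext
    unfold Pool.Agent.N534.HC.Inst.gH Pool.Agent.N534.HC.Gdv Pool.Agent.N534.HC.rmem
    have h3 : (F ()).natDegree = 3 := Pool.Agent.N534.HC.Cub.deg_cubic _ _
    have h4 : ∀ i : Unit, Pool.Agent.N534.HC.mem (F i) c = curve K A B c := fun _ => hmem c
    constructor
    · rintro ⟨h1, h2⟩ ⟨⟩
      rw [h4 (), h3]
      exact ⟨h1, hdeg c v, h2⟩
    · intro h
      have := h ()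
      rw [h4 ()] at this
      exact ⟨this.1, this.2.2⟩
  have hL : (fun (c : J → ℤ) => LSeries (trace (curve K A B c)) (Good (curve K A B c))) =
      fun (c : J → ℤ) => Pool.Agent.N534.HC.St.LSeries (Pool.Agent.N534.HC.Inst.tH Φ F c)
        (Pool.Agent.N534.HC.Inst.gH F c) := by
    funext c
    have h1 : trace (curve K A B c) = Pool.Agent.N534.HC.Inst.tH Φ F c := congrFun ht c
    have h2 : Good (curve K A B c) = Pool.Agent.N534.HC.Inst.gH F c := congrFun hg c
    rw [h1, h2]
    rfl
  have h1 := Pool.Agent.N534.HC.St.lawC hcmp hD s (fun k => by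
    have := hsk k
    push_cast
    linarith)
  have h32 : 1 + ((1 : ℕ) : ℝ) / 2 = 3 / 2 := by norm_num
  rw [h32] at h1
  change ∃ Z : κ → Residues J → ℂ, (∀ k, Measurable (Z k)) ∧ (∀ k, Integrable (Z k) (uniform J)) ∧
      (∀ k, Tendsto (fun z : ℕ => ∫ x, ‖randomLog (fun c => trace (curve K A B c)) (fun c => Good (curve K A B c))
        z (s k) x - Z k x‖ ∂(uniform J)) atTop (𝓝 0)) ∧
      ∀ σ : ℕ → κ → ℂ, (∀ k, Tendsto (fun H => σ H k) atTop (𝓝 (s k))) →
        (∀ k, Tendsto (fun H : ℕ => ((σ H k).re - 3 / 2) * Real.log H) atTop atTop) →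
        (∀ g : (κ → ℂ) → ℝ, Continuous g → (∃ C : ℝ, ∀ y, |g y| ≤ C) →
          Tendsto (fun H : ℕ => (∑ c ∈ box J H, g (fun k =>
            (fun (c : J → ℤ) => LSeries (trace (curve K A B c)) (Good (curve K A B c))) c (σ H k))) /
            (box J H).card) atTop (𝓝 (∫ x, g (fun k => Complex.exp (Z k x)) ∂(uniform J)))) ∧
        (∀ E : Set (κ → ℂ), MeasurableSet E →
          uniform J {x | (fun k => Complex.exp (Z k x)) ∈ frontier E} = 0 →
          Tendsto (fun H : ℕ => (open Classical in ((box J H).filter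
            (fun c => (fun k => (fun (c : J → ℤ) => LSeries (trace (curve K A B c)) (Good (curve K A B c))) c (σ H k)) ∈
              E)).card : ℝ) / (box J H).card) atTop
            (𝓝 ((uniform J).real {x | (fun k => Complex.exp (Z k x)) ∈ E})))
  rw [hL, ht, hg]
  exact h1

end

end Pool.Agent.Results.MP_bf9450_nt.BaseChangeLimitLaw
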