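import Mathlib
import Pool.Agent.N534.HC.Cub

/-!
# Random elliptic curves over `ℚ`, over an arbitrary number field `K`: the L-functions near the edge

`K` is any number field, `E_c : y² = x³ + A(c) x + B(c)`, where `A`, `B` are weighted homogeneous polynomials with integer coefficients in
finitely many integer parameters, of degrees `2 m` and `3 m`, `m` odd, and `4 A³ + 27 B² ≠ 0`. Examples: all elliptic curves over `ℚ`
(`A = c₁`, `B = c₂`, weights `2` and `3`, `m = 1`), all quadratic twists of one curve (`A = a d²`, `B = b d³`, weight `1`, `m = 1`), the curves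
`y² = x³ + b` and `y² = x³ + a x`, and the fibres of rational elliptic surfaces `y² = x³ + A(s, t) x + B(s, t)` with forms `A`, `B` of degrees `2`, `3` and all
`2 m`, `3 m`, `m` odd.

`L(E_c/K, s)` is the Euler product over the places of `K` above the primes `p` at which all `v ∣ p` are good. For `K` not of a special kind (abelian, or
solvable over a totally real field of small degree, ...) the continuation of this function is not known. Q1 says that it is entire, and then it should
be the L-function of automorphic representations, without zeros on the edge `Re s = 3/2` of absolute convergence.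

The theorem: the mean over the curves with `|c_j| ≤ H` of the square of the supremum of `|log L(E_c/K, s)|` over the rectangle
`3/2 + 1/log H ≤ Re s ≤ 5/2`, `|Im s| ≤ T` is at most `C (1 + T)`, with `C` independent of `H` and `T`. So outside a proportion `δ` of the
curves neither a pole (excluded by Q1) nor a zero on the whole edge line is visible at the distance `1/log H`: it would make `|log L|` as large as `log (1/ε)` at
the distance `ε`. Nothing about continuation is assumed or proved.
-/

set_option autoImplicit false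

open NumberField IsDedekindDomain Polynomial

namespace Pool.Agent.Results.MP_bf9450_nt.BaseChangeNearTheEdge

section
variable {K : Type} [Field K] [NumberField K]

/-- Number of affine points of `y² = g(x)` with coordinates in the extension of degree `m` of the finite field `k`, i.e. the field of the
elements of the algebraic closure of `k` which are fixed by the `m`-th power of the Frobenius of `k`. -/
noncomputable def affineCount (k : Type) [Field k] (g : k[X]) (m : ℕ) : ℕ :=
  Nat.card {P : AlgebraicClosure k × AlgebraicClosure k //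
    P.1 ^ (Nat.card k ^ m) = P.1 ∧ P.2 ^ (Nat.card k ^ m) = P.2 ∧ P.2 ^ 2 = aeval P.1 g}

/-- `α^m + β^m` for the eigenvalues `α, β` of the Frobenius at `v`: `q^m + 1` minus the number of points over the field with `q^m` elements
(one of them is at infinity), `q = N v`. -/
noncomputable def trace (f : (𝓞 K)[X]) (v : HeightOneSpectrum (𝓞 K)) (m : ℕ) : ℝ :=
  haveI : v.asIdeal.IsMaximal := v.isMaximal
  letI : Field (𝓞 K ⧸ v.asIdeal) := Ideal.Quotient.field v.asIdeal
  ((Ideal.absNorm v.asIdeal : ℕ) : ℝ) ^ m - (affineCount (𝓞 K ⧸ v.asIdeal) (f.map (Ideal.Quotient.mk v.asIdeal)) m : ℝ)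

/-- Good reduction of `y² = f(x)`: `v` does not divide `2` and the reduction of `f` is separable. -/
def Good (f : (𝓞 K)[X]) (v : HeightOneSpectrum (𝓞 K)) : Prop :=
  (2 : 𝓞 K) ∉ v.asIdeal ∧ (f.map (Ideal.Quotient.mk v.asIdeal)).Separable

open Classical in
/-- The sum over the places `v` above `p`, of residue degree `f_v` dividing `k`, of `f_v` times the local trace of the power `k / f_v`. -/
noncomputable def frobTrace (t : HeightOneSpectrum (𝓞 K) → ℕ → ℝ) (p k : ℕ) : ℝ :=
  ∑ᶠ v : {v : HeightOneSpectrum (𝓞 K) // (p : 𝓞 K) ∈ v.asIdeal},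
    if Nat.log p (Ideal.absNorm v.1.asIdeal) ∣ k then
      (Nat.log p (Ideal.absNorm v.1.asIdeal) : ℝ) * t v.1 (k / Nat.log p (Ideal.absNorm v.1.asIdeal))
    else 0

open Classical in
/-- The logarithm `∑ (frobTrace t p k) p^{-ks} / k` of the product of the Euler factors at the places above `p`, for local traces `t`; it is
omitted if one of these places is not good. -/
noncomputable def logFactor (t : HeightOneSpectrum (𝓞 K) → ℕ → ℝ) (G : HeightOneSpectrum (𝓞 K) → Prop)
    (s : ℂ) (p : ℕ) : ℂ :=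
  if ∃ v : HeightOneSpectrum (𝓞 K), (p : 𝓞 K) ∈ v.asIdeal ∧ ¬ G v then 0 else
    ∑' k : ℕ, (frobTrace t p (k + 1) : ℂ) / ((k : ℂ) + 1) * (p : ℂ) ^ (-(((k : ℂ) + 1) * s))

/-- The logarithm of the L-function. -/
noncomputable def logL (t : HeightOneSpectrum (𝓞 K) → ℕ → ℝ) (G : HeightOneSpectrum (𝓞 K) → Prop) (s : ℂ) : ℂ :=
  ∑' p : Nat.Primes, logFactor t G s (p : ℕ)

/-- The L-function: the product of the Euler factors. -/
noncomputable def LSeries (t : HeightOneSpectrum (𝓞 K) → ℕ → ℝ) (G : HeightOneSpectrum (𝓞 K) → Prop) (s : ℂ) : ℂ :=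
  ∏' p : Nat.Primes, Complex.exp (logFactor t G s (p : ℕ))

/-- The curve `y² = x³ + A(c) x + B(c)`, as a polynomial over `𝓞 K`. -/
noncomputable def curve (K : Type) [Field K] [NumberField K] {J : Type} (A B : MvPolynomial J ℤ) (c : J → ℤ) : (𝓞 K)[X] :=
  X ^ 3 + C ((MvPolynomial.eval c A : ℤ) : 𝓞 K) * X + C ((MvPolynomial.eval c B : ℤ) : 𝓞 K)

variable {J : Type} [Fintype J] [DecidableEq J]

/-- The integer vectors with coordinates of absolute value at most `H`. -/
noncomputable def box (ι : Type) [Fintype ι] [DecidableEq ι] (H : ℕ) : Finset (ι → ℤ) :=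
  Fintype.piFinset fun _ => Finset.Icc (-(H : ℤ)) H

/-- The rectangle `3/2 + 1/log H ≤ Re s ≤ 5/2`, `|Im s| ≤ T`. -/
def rectangle (H : ℕ) (T : ℝ) : Set ℂ :=
  {s | 3 / 2 + 1 / Real.log H ≤ s.re ∧ s.re ≤ 5 / 2 ∧ |s.im| ≤ T}

/-- **Random rational elliptic curves over a number field `K`: the L-functions near the line `Re s = 3/2`.** -/
theorem result (A B : MvPolynomial J ℤ) (wt : J → ℕ) (m : ℕ) (hm : Odd m)
    (hA : ∀ (G : ℤ) (c : J → ℤ), MvPolynomial.eval (fun j => G ^ wt j * c j) A = G ^ (2 * m) * MvPolynomial.eval c A)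
    (hB : ∀ (G : ℤ) (c : J → ℤ), MvPolynomial.eval (fun j => G ^ wt j * c j) B = G ^ (3 * m) * MvPolynomial.eval c B)
    (hAB : ∃ c : J → ℤ, 4 * (MvPolynomial.eval c A) ^ 3 + 27 * (MvPolynomial.eval c B) ^ 2 ≠ 0) :
    (∀ (c : J → ℤ) (s : ℂ), 3 / 2 < s.re →
      LSeries (trace (curve K A B c)) (Good (curve K A B c)) s =
        Complex.exp (logL (trace (curve K A B c)) (Good (curve K A B c)) s)) ∧
    ∃ C : ℝ, 0 < C ∧ ∀ H : ℕ, 2 ≤ H → ∀ T : ℝ, 0 ≤ T →
      (∀ X ⊆ box J H, ∀ s : (J → ℤ) → ℂ, (∀ c ∈ X, s c ∈ rectangle H T) →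
        ∑ c ∈ X, ‖logL (trace (curve K A B c)) (Good (curve K A B c)) (s c)‖ ^ 2 ≤ C * (1 + T) * (box J H).card) ∧
      (∀ δ : ℝ, 0 < δ → ∃ X ⊆ box J H, (X.card : ℝ) ≤ δ * (box J H).card ∧
        ∀ c ∈ box J H \ X, ∀ s ∈ rectangle H T,
          ‖logL (trace (curve K A B c)) (Good (curve K A B c)) s‖ ≤ Real.sqrt (C * (1 + T) / δ)) := by
  set Φ : MvPolynomial (Option (Unit × ℕ)) ℝ := MvPolynomial.X (some ((), 0)) with hΦ
  set F : Unit → (MvPolynomial J (𝓞 K))[X] := fun _ => Pool.Agent.N534.HC.Cub.cub K A B with hF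
  have hwt : Pool.Agent.N534.HC.HasWt Φ 1 :=
    (Pool.Agent.N534.HC.Inst.hasWt_iff _ _).2 (MvPolynomial.isWeightedHomogeneous_X ℝ _ (some ((), 0)))
  have hAdm : ∀ i, Pool.Agent.N534.HC.Adm (F i) := fun _ => Pool.Agent.N534.HC.Cub.adm_cub hAB
  have hodd := Pool.Agent.N534.HC.Inst.oddMon_all (F := F) (wt := wt) (a := fun _ => m) (e := fun _ => 3 * m)
    (fun _ => Pool.Agent.N534.HC.Cub.scl_cub hA hB) (fun _ => (by decide : Odd 3).mul hm) hwt odd_one
  obtain ⟨D, hD⟩ := Pool.Agent.N534.HC.powH hwt hAdm hodd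
  have hcmp := Pool.Agent.N534.HC.Inst.cmpH 1 Φ F
  have hdeg : ∀ (c : J → ℤ) (v : HeightOneSpectrum (𝓞 K)),
      ((curve K A B c).map (Ideal.Quotient.mk v.asIdeal)).natDegree = 3 := by
    intro c v
    unfold curve
    rw [Polynomial.map_add, Polynomial.map_add, Polynomial.map_mul, Polynomial.map_pow, Polynomial.map_X,
      Polynomial.map_C, Polynomial.map_C]
    exact Pool.Agent.N534.HC.Cub.deg_cubic _ _
  have hmem : ∀ c : J → ℤ, Pool.Agent.N534.HC.mem (Pool.Agent.N534.HC.Cub.cub K A B) c = curve K A B c :=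
    Pool.Agent.N534.HC.Cub.mem_cub A B
  have ht : (fun c : J → ℤ => trace (curve K A B c)) = Pool.Agent.N534.HC.Inst.tH Φ F := by
    funext c v k
    have h1 := Pool.Agent.N534.HC.Inst.trace_eq (curve K A B c) v k
    have h2 : Pool.Agent.N534.HC.Inst.tH Φ F c v k =
        ((Pool.Agent.N534.HC.Inst.trace (curve K A B c) v k : ℤ) : ℝ) := by
      unfold Pool.Agent.N534.HC.Inst.tH Pool.Agent.N534.HC.chv
      rw [hΦ, MvPolynomial.eval_X, h1, ← hmem]
      change ((Pool.Agent.N534.HC.trv v _ (k * (0 + 1)) : ℤ) : ℝ) = _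
      rw [zero_add, mul_one]
      rfl
    rw [h2]
    unfold Pool.Agent.N534.HC.Inst.trace trace Pool.Agent.N534.HC.Inst.infinityCount
    rw [hdeg, if_pos (by decide : Odd 3)]
    push_cast
    have h3 : ∀ (k : Type) [Field k] (g : k[X]) (m : ℕ), Pool.Agent.N534.HC.Inst.affineCount k g m = affineCount k g m :=
      fun _ _ _ _ => rfl
    rw [h3]
    ring
  have hg : (fun (c : J → ℤ) => Good (curve K A B c)) = Pool.Agent.N534.HC.Inst.gH F := by
    funext c v
    apply propext
    unfold Pool.Agent.N534.HC.Inst.gH Pool.Agent.N534.HC.Gdv Pool.Agent.N534.HC.rmem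
    have h3 : (F ()).natDegree = 3 := Pool.Agent.N534.HC.Cub.deg_cubic _ _
    have h4 : ∀ i : Unit, Pool.Agent.N534.HC.mem (F i) c = curve K A B c := fun _ => hmem c
    constructor
    · rintro ⟨h1, h2⟩ ⟨⟩
      rw [h4 (), h3]
      exact ⟨h1, hdeg c v, h2⟩
    · intro h
      have := h ()
      rw [h4 ()] at this
      exact ⟨this.1, this.2.2⟩
  have ht' : ∀ c : J → ℤ, trace (curve K A B c) = Pool.Agent.N534.HC.Inst.tH Φ F c := fun c => congrFun ht c
  have hg' : ∀ c : J → ℤ, Good (curve K A B c) = Pool.Agent.N534.HC.Inst.gH F c := fun c => congrFun hg c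
  have hrect : ∀ (H : ℕ) (T : ℝ), rectangle H T = Pool.Agent.N534.HC.St.rectangle 1 H T := by
    intro H T
    unfold rectangle Pool.Agent.N534.HC.St.rectangle
    push_cast
    norm_num
  simp only [hrect, ht', hg']
  refine ⟨fun c s hs' => ?_, ?_⟩
  · exact Pool.Agent.N534.HC.St.LSeries_eq hcmp hD c s (by push_cast; linarith)
  · exact Pool.Agent.N534.HC.St.avgC hcmp hD

end

end Pool.Agent.Results.MP_bf9450_nt.BaseChangeNearTheEdge
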