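import Mathlib
import Pool.Agent.N666.BC.Loc
import Pool.Agent.N666.BC.Hasse

/-!
# A fixed elliptic curve over `ℚ` over a thin sequence of number fields of degree `d`

`E : y² = x³ + A x + B` is ANY elliptic curve over `ℚ` (`A`, `B` integers, `4 A³ + 27 B² ≠ 0`). The number field varies:
`K_c = ℚ[x] / (f_c)`, where `f_c = G(c'; x) + c₀` is a member of a family of monic polynomials of degree `d`: `G` is any monic polynomial in `x` of
degree `d ≥ 1` whose coefficients are integral polynomials in finitely many parameters `c'`, and `c = (c₀, c')`, `c₀` the additive parameter.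
(If `f_c` is reducible, `K_c` is a product of number fields, and `L(E/K_c, s)` is the product of their L-functions.)

`L(E/K_c, s) / L(E/ℚ, s)` is the L-function of the tensor product of `E` and the Artin representation `Ind 1 - 1` of dimension `d - 1`; as
`L(E/ℚ, s)` is known, its continuation is the question of Hasse and Weil for `E/K_c`. We take the Euler product over the primes `p > d` with
`p ∤ 6 (4 A³ + 27 B²)` for which `f_c` is separable modulo `p`. The places of `K_c` above such a prime are given by the irreducible factors `h` of `f_c`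
modulo `p`, their residue degrees are the `deg h`, and the sum of the `deg h` with `deg h ∣ k` is the number `ρ_k` of the roots of `f_c` in the field with
`p^k` elements; so with `a_p(k) = α^k + β^k` the Euler factors of `L(E/K_c, s)` and `L(E/ℚ, s)` are `exp (∑ a_p(k) ρ_k p^{-ks} / k)` and
`exp (∑ a_p(k) p^{-ks} / k)`.

The fields are thin: `c(n)_j = ⌊P_j(n)⌋`, where the `P_j` are generalised polynomials (finite sums of real powers with real coefficients) whose
leading exponents are positive, not integers and different from each other, with positive leading coefficients; `n` runs through the integers, or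
through the primes, of `(N, 2N]`. Examples: `f_n = x^d + ⌊n^√2⌋ x + ⌊n^(5/2)⌋`; the pure fields `f_n = x^d + ⌊n^π⌋`.

Theorem, for the integers and for the primes of `(N, 2N]`:
(1) the mean over `n` of the square of the supremum of `|log (L(E/K_n, s) / L(E/ℚ, s))|` over the rectangle `3/2 + 1/log N ≤ Re s ≤ 5/2`, `|Im s| ≤ T` is
at most `C (1 + T)`, `C` free of `N ≥ N₀` and `T`; so `|log| ≤ (C (1 + T) / δ)^(1/2)` in the rectangle for all `n` outside a proportion `δ`;
(2) for points `s_k` with `Re s_k ≥ 3/2` (on the edge allowed) and `σ_k(N) → s_k` with `(Re σ_k(N) - 3/2) log N → ∞` the joint distribution of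
the `L(E/K_n, σ_k(N)) / L(E/ℚ, σ_k(N))` converges to that of the values at `s_k` of the random Euler product (independent uniform residue
classes `c` modulo the primes).
-/

set_option autoImplicit false

open Polynomial MeasureTheory Filter Topology

namespace Pool.Agent.Results.MP_bf9450_nt.ThinFields

/-- The trace of the Frobenius at `p`: `p` minus the number of affine points of `y² = x³ + A x + B` over `𝔽_p`. -/
noncomputable def trace (A B : ℤ) (p : ℕ) : ℤ :=
  (p : ℤ) - (Nat.card {P : ZMod p × ZMod p // P.2 ^ 2 = P.1 ^ 3 + A * P.1 + B} : ℕ)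

/-- The root `α = (a + i √(4 q - a²)) / 2` of `X² - a X + q`; the other root is its complex conjugate. -/
noncomputable def eigenvalue (a : ℤ) (q : ℕ) : ℂ :=
  ((a : ℂ) + Complex.I * ((Real.sqrt (4 * q - a ^ 2) : ℝ) : ℂ)) / 2

/-- The sum of the `k`-th powers of the two roots. -/
noncomputable def powerSum (a : ℤ) (q k : ℕ) : ℝ := 2 * (eigenvalue a q ^ k).re

/-- The number of the roots of `g` in the field with `p ^ k` elements, i.e. the field of the elements `z` of the algebraic closure of `𝔽_p`
with `z ^ (p ^ k) = z`. -/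
noncomputable def rootCount (g : ℤ[X]) (p : Nat.Primes) (k : ℕ) : ℕ :=
  haveI : Fact (p : ℕ).Prime := ⟨p.2⟩
  Nat.card {z : AlgebraicClosure (ZMod p) // z ^ (p : ℕ) ^ k = z ∧ aeval z (g.map (Int.castRingHom (ZMod p))) = 0}

open Classical in
/-- The logarithm of the quotient of the Euler factors at `p` of `E` over `ℚ[x] / (g)` and of `E` over `ℚ`; it is omitted if `p ≤ deg g`, if `p` divides
`6 (4 A³ + 27 B²)` or if `g` is not separable modulo `p`. -/
noncomputable def logFactor (A B : ℤ) (g : ℤ[X]) (s : ℂ) (p : Nat.Primes) : ℂ :=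
  if (p : ℕ) ≤ g.natDegree ∨ ((p : ℕ) : ℤ) ∣ 6 * (4 * A ^ 3 + 27 * B ^ 2) ∨
      ¬ (g.map (Int.castRingHom (ZMod p))).Separable then 0 else
    ∑' k : ℕ, ((powerSum (trace A B p) p (k + 1) * ((rootCount g p (k + 1) : ℝ) - 1) : ℝ) : ℂ) / ((k : ℂ) + 1) *
      ((p : ℕ) : ℂ) ^ (-(((k : ℂ) + 1) * s))

/-- The logarithm of the quotient of the L-functions of `E` over `ℚ[x] / (g)` and of `E` over `ℚ`. -/
noncomputable def logL (A B : ℤ) (g : ℤ[X]) (s : ℂ) : ℂ := ∑' p : Nat.Primes, logFactor A B g s p

/-- The quotient of the L-functions of `E` over `ℚ[x] / (g)` and of `E` over `ℚ`: the product of the quotients of the Euler factors. -/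
noncomputable def LSeries (A B : ℤ) (g : ℤ[X]) (s : ℂ) : ℂ := ∏' p : Nat.Primes, Complex.exp (logFactor A B g s p)

variable {J : Type} [Fintype J] [DecidableEq J]

/-- The polynomial `G(c'; x) + c₀`; the coordinate `none` of `c` is `c₀`, the other coordinates form `c'`. -/
noncomputable def member (G : (MvPolynomial J ℤ)[X]) (c : Option J → ℤ) : ℤ[X] :=
  G.map (MvPolynomial.eval fun j => c (some j)) + C (c none)

/-- Vectors of residue classes, one for each prime. -/
abbrev Residues (ι : Type) : Type := ∀ p : Nat.Primes, ι → ZMod (p : ℕ)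

/-- The residue classes are independent and uniform. -/
noncomputable def uniform (ι : Type) [Fintype ι] [DecidableEq ι] : MeasureTheory.Measure (Residues ι) :=
  MeasureTheory.Measure.infinitePi fun p => (PMF.uniformOfFintype (ι → ZMod (p : ℕ))).toMeasure

/-- An integer vector in the residue class modulo `p`. -/
def lift {ι : Type} (x : Residues ι) (p : Nat.Primes) : ι → ℤ := fun i => ((x p i).val : ℤ)

/-- The prime numbers up to `z`. -/
def primesUpTo (z : ℕ) : Finset Nat.Primes := (Finset.range (z + 1)).subtype Nat.Prime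

/-- The logarithm of the random Euler product over the primes `p ≤ z`: the Euler factor at `p` is that of the member given by the
residue classes modulo `p`. -/
noncomputable def randomLog (A B : ℤ) (G : (MvPolynomial J ℤ)[X]) (z : ℕ) (s : ℂ) (x : Residues (Option J)) : ℂ :=
  ∑ p ∈ primesUpTo z, logFactor A B (member G (lift x p)) s p

/-- The rectangle `3/2 + 1/log N ≤ Re s ≤ 5/2`, `|Im s| ≤ T`. -/
def rectangle (N : ℕ) (T : ℝ) : Set ℂ :=
  {s | 3 / 2 + 1 / Real.log N ≤ s.re ∧ s.re ≤ 5 / 2 ∧ |s.im| ≤ T}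

/-- `c` is the largest exponent of the generalised polynomial `∑ a_x t ^ x`; it is positive and not an
integer and has a positive coefficient. -/
def Admissible (F : Finset ℝ) (a : ℝ → ℝ) (c : ℝ) : Prop :=
  c ∈ F ∧ (∀ x ∈ F, x ≤ c) ∧ 0 < c ∧ (∀ m : ℕ, c ≠ m) ∧ 0 < a c

/-- The integer parts of the values at `n` of the generalised polynomials `∑ a_x t ^ x`, `x ∈ F k`. -/
noncomputable def floors {ι : Type} (F : ι → Finset ℝ) (a : ι → ℝ → ℝ) (n : ℕ) (k : ι) : ℤ :=
  ⌊∑ x ∈ F k, a k x * (n : ℝ) ^ x⌋

/-- The functions `L n`, `n ∈ S`, are bounded on the average in the region `R`. -/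
def BoundedOn (L : ℕ → ℂ → ℂ) (S : Finset ℕ) (R : Set ℂ) (C : ℝ) : Prop :=
  (∀ S' ⊆ S, ∀ u : ℕ → ℂ, (∀ n ∈ S', u n ∈ R) → ∑ n ∈ S', ‖L n (u n)‖ ^ 2 ≤ C * S.card) ∧
  (∀ δ : ℝ, 0 < δ → ∃ X ⊆ S, (X.card : ℝ) ≤ δ * S.card ∧
    ∀ n ∈ S \ X, ∀ u ∈ R, ‖L n u‖ ≤ Real.sqrt (C / δ))

/-- The joint distribution of the values `X N n k` for `n ∈ S N` tends to that of the `exp (Z k)`. -/
def ConvergesTo {ι κ : Type} [Fintype ι] [DecidableEq ι] [Fintype κ] (S : ℕ → Finset ℕ) (X : ℕ → ℕ → κ → ℂ)
    (Z : κ → Residues ι → ℂ) : Prop :=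
  (∀ G : (κ → ℂ) → ℝ, Continuous G → (∃ C : ℝ, ∀ y, |G y| ≤ C) →
    Tendsto (fun N : ℕ => (∑ n ∈ S N, G (X N n)) / (S N).card) atTop
      (𝓝 (∫ x, G (fun k => Complex.exp (Z k x)) ∂(uniform ι)))) ∧
  (∀ E : Set (κ → ℂ), MeasurableSet E → uniform ι {x | (fun k => Complex.exp (Z k x)) ∈ frontier E} = 0 →
    Tendsto (fun N : ℕ => (open Classical in ((S N).filter (fun n => X N n ∈ E)).card : ℝ) / (S N).card) atTop
      (𝓝 ((uniform ι).real {x | (fun k => Complex.exp (Z k x)) ∈ E})))

/-- **A fixed elliptic curve over `ℚ` and a thin sequence of number fields: (1) the supremum near the line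
`Re s = 3/2`, (2) the limit law up to this line.** -/
theorem result (A B : ℤ) (_hAB : 4 * A ^ 3 + 27 * B ^ 2 ≠ 0) (G : (MvPolynomial J ℤ)[X]) (hG : G.Monic)
    (hd : 1 ≤ G.natDegree) (P : Option J → Finset ℝ) (a : Option J → ℝ → ℝ) (e : Option J → ℝ)
    (h : ∀ k, Admissible (P k) (a k) (e k)) (he : Function.Injective e) :
    (∀ (c : Option J → ℤ) (s : ℂ), 3 / 2 < s.re →
      LSeries A B (member G c) s = Complex.exp (logL A B (member G c) s)) ∧
    (∃ C : ℝ, 0 < C ∧ ∃ N₀ : ℕ, ∀ N : ℕ, N₀ ≤ N → ∀ T : ℝ, 0 ≤ T →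
      BoundedOn (fun n => logL A B (member G (floors P a n))) (Finset.Ioc N (2 * N)) (rectangle N T) (C * (1 + T)) ∧
      BoundedOn (fun n => logL A B (member G (floors P a n))) ((Finset.Ioc N (2 * N)).filter Nat.Prime)
        (rectangle N T) (C * (1 + T))) ∧
    ∀ {κ : Type} [Fintype κ] (s : κ → ℂ), (∀ k, 3 / 2 ≤ (s k).re) →
      ∃ Z : κ → Residues (Option J) → ℂ, (∀ k, Measurable (Z k)) ∧ (∀ k, Integrable (Z k) (uniform (Option J))) ∧
        (∀ k, Tendsto (fun z : ℕ => ∫ x, ‖randomLog A B G z (s k) x - Z k x‖ ∂(uniform (Option J))) atTop (𝓝 0)) ∧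
        ∀ σ : ℕ → κ → ℂ, (∀ k, Tendsto (fun N => σ N k) atTop (𝓝 (s k))) →
          (∀ k, Tendsto (fun N : ℕ => ((σ N k).re - 3 / 2) * Real.log N) atTop atTop) →
          ConvergesTo (fun N => Finset.Ioc N (2 * N))
            (fun N n k => LSeries A B (member G (floors P a n)) (σ N k)) Z ∧
          ConvergesTo (fun N => (Finset.Ioc N (2 * N)).filter Nat.Prime)
            (fun N n k => LSeries A B (member G (floors P a n)) (σ N k)) Z := by
  classical
  set Δ : ℤ := 6 * (4 * A ^ 3 + 27 * B ^ 2) with hΔ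
  set α : ℕ → ℕ → ℝ := fun p k => if ((p : ℕ) : ℤ) ∣ Δ then 0 else powerSum (trace A B p) p k with hα
  have ha : ∀ p : ℕ, p.Prime → ∀ k : ℕ, 1 ≤ k → |α p k| ≤ 2 * (p : ℝ) ^ ((k : ℝ) * (((1 : ℕ) : ℝ) / 2)) := by
    intro p hp k _
    simp only [hα]
    split_ifs with h1
    · rw [abs_zero]; positivity
    · have : Fact p.Prime := ⟨hp⟩
      refine Pool.Agent.N666.BC.psum_le p ?_ A B k
      rintro rfl
      exact h1 ⟨3 * (4 * A ^ 3 + 27 * B ^ 2), by rw [hΔ]; push_cast; ring⟩
  have hp := Pool.Agent.N666.BC.powB hG hd (w := 1) (A := 2) (by norm_num) α ha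
  have hdeg : ∀ c : Option J → ℤ, (member G c).natDegree = G.natDegree := by
    intro c
    unfold member
    rw [natDegree_add_C, hG.natDegree_map]
  have hL : ∀ (c : Option J → ℤ) (s : ℂ) (p : Nat.Primes), logFactor A B (member G c) s p =
      Pool.Agent.N534.PS.lamT 1 (G.natDegree + 1) (Pool.Agent.N666.BC.TB α G)
        (fun p r => ¬ (Pool.Agent.N666.BC.gm G p r).Separable) c (p : ℕ) (s - (1 + ((1 : ℕ) : ℂ) / 2)) := by
    intro c s p
    have : Fact (p : ℕ).Prime := ⟨p.2⟩
    have hgm := Pool.Agent.N666.BC.gm_red G p c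
    have hmem : Pool.Agent.N666.BC.mem G c = member G c := rfl
    rw [hmem] at hgm
    unfold logFactor Pool.Agent.N534.PS.lamT
    beta_reduce
    rw [hgm, hdeg]
    by_cases h1 : (p : ℕ) ≤ G.natDegree
    · rw [if_pos (Or.inl h1), if_neg]
      rintro ⟨-, h2, -⟩
      omega
    · by_cases h2 : ((member G c).map (Int.castRingHom (ZMod p))).Separable
      · have hR : Nat.Prime (p : ℕ) ∧ G.natDegree + 1 ≤ (p : ℕ) ∧
            ¬ ¬ ((member G c).map (Int.castRingHom (ZMod p))).Separable := ⟨p.2, by omega, not_not.2 h2⟩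
        rw [if_pos hR]
        by_cases h3 : (((p : ℕ) : ℤ)) ∣ 6 * (4 * A ^ 3 + 27 * B ^ 2)
        · rw [if_pos (Or.inr (Or.inl h3))]
          symm
          rw [← tsum_zero (α := ℂ) (β := ℕ)]
          refine tsum_congr fun k => ?_
          unfold Pool.Agent.N534.PS.trm Pool.Agent.N666.BC.TB
          simp only [hα]
          rw [if_pos h3]
          simp
        · rw [if_neg (by tauto)]
          refine tsum_congr fun k => ?_
          unfold Pool.Agent.N534.PS.trm Pool.Agent.N666.BC.TB
          simp only [hα]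
          rw [if_neg h3, hgm]
          have h4 : rootCount (member G c) p (k + 1) =
              Pool.Agent.N666.BC.rc p (k + 1) ((member G c).map (Int.castRingHom (ZMod p))) := by
            rw [Pool.Agent.N666.BC.rc_eq]
            rfl
          rw [h4]
          congr 3
          push_cast
          ring
      · rw [if_pos (Or.inr (Or.inr h2)), if_neg]
        rintro ⟨-, -, h3⟩
        exact h3 h2
  have main := Pool.Agent.N666.TM.RQ.thin_Q hL hp h he
  have h32 : 1 + ((1 : ℕ) : ℝ) / 2 = 3 / 2 := by norm_num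
  have hrect : ∀ (N : ℕ) (T : ℝ), Pool.Agent.N534.HC.St.rectangle 1 N T = rectangle N T := by
    intro N T
    unfold rectangle Pool.Agent.N534.HC.St.rectangle
    push_cast
    norm_num
  simp only [h32, hrect] at main
  exact main

end Pool.Agent.Results.MP_bf9450_nt.ThinFields
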