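import Mathlib
import Pool.Agent.N666.TM.St
import Pool.Agent.N534.HC.Cub

/-!
# Thin sequences of elliptic curves over `ℚ`, over an arbitrary number field `K`: near the edge and limit law

`K` is any number field, `E_c : y² = x³ + A(c) x + B(c)`, where `A`, `B` are weighted homogeneous polynomials with integer coefficients in
finitely many integer parameters `c_j`, of degrees `2 m` and `3 m`, `m` odd, and `4 A³ + 27 B² ≠ 0` (the families of
`MP_bf9450_nt.BaseChangeNearTheEdge` of helper534). Examples: all elliptic curves over `ℚ` (`A = c₁`, `B = c₂`), all quadratic twists of one curve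
(`A = a d²`, `B = b d³`), the curves `y² = x³ + b`.

The parameters are thin: `c(n)_j = ⌊P_j(n)⌋`, where the `P_j` are generalised polynomials (finite sums of real powers with real coefficients) whose leading
exponents are positive, not integers and different from each other, with positive leading coefficients; `n` runs through the integers, or
through the primes, of `(N, 2N]`. Examples: `y² = x³ + ⌊n^√2⌋ x + ⌊n^(5/2)⌋`; the twists of one curve by `⌊n^π⌋`. Only `N` of the
members of the box of this size occur.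

`L(E_c/K, s)` is the Euler product over the places of `K` above the primes `p` at which all `v ∣ p` are good.

Theorem, for the integers and for the primes of `(N, 2N]`:
(1) the mean over `n` of the square of the supremum of `|log L(E_{c(n)}/K, s)|` over the rectangle `3/2 + 1/log N ≤ Re s ≤ 5/2`, `|Im s| ≤ T` is
at most `C (1 + T)`, `C` free of `N ≥ N₀` and `T`; so `|log L| ≤ (C (1 + T) / δ)^(1/2)` in the rectangle for all `n` outside a proportion `δ`;
(2) for points `s_k` with `Re s_k ≥ 3/2` (on the edge allowed) and `σ_k(N) → s_k` with `(Re σ_k(N) - 3/2) log N → ∞` the joint distribution of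
the `L(E_{c(n)}/K, σ_k(N))` converges to that of the values at `s_k` of the random Euler product over `K` (independent uniform residue
classes modulo the primes).
-/

set_option autoImplicit false

open NumberField IsDedekindDomain Polynomial MeasureTheory Filter Topology

namespace Pool.Agent.Results.MP_bf9450_nt.ThinRationalCurves

section
variable {K : Type} [Field K] [NumberField K]

/-- Number of affine points of `y² = g(x)` with coordinates in the extension of degree `m` of the finite field `k`, i.e. the field of the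
elements of the algebraic closure of `k` which are fixed by the `m`-th power of the Frobenius of `k`. -/
noncomputable def affineCount (k : Type) [Field k] (g : k[X]) (m : ℕ) : ℕ :=
  Nat.card {P : AlgebraicClosure k × AlgebraicClosure k //
    P.1 ^ (Nat.card k ^ m) = P.1 ∧ P.2 ^ (Nat.card k ^ m) = P.2 ∧ P.2 ^ 2 = aeval P.1 g}

/-- `α^m + β^m` for the eigenvalues `α, β` of the Frobenius at `v`: `q^m + 1` minus the number of points over the field with `q^m` elements
(one of them is at infinity), `q = N v`. -/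
noncomputable def trace (f : (𝓞 K)[X]) (v : HeightOneSpectrum (𝓞 K)) (m : ℕ) : ℝ :=
  haveI : v.asIdeal.IsMaximal := v.isMaximal
  letI : Field (𝓞 K ⧸ v.asIdeal) := Ideal.Quotient.field v.asIdeal
  ((Ideal.absNorm v.asIdeal : ℕ) : ℝ) ^ m - (affineCount (𝓞 K ⧸ v.asIdeal) (f.map (Ideal.Quotient.mk v.asIdeal)) m : ℝ)

/-- Good reduction of `y² = f(x)`: `v` does not divide `2` and the reduction of `f` is separable. -/
def Good (f : (𝓞 K)[X]) (v : HeightOneSpectrum (𝓞 K)) : Prop :=
  (2 : 𝓞 K) ∉ v.asIdeal ∧ (f.map (Ideal.Quotient.mk v.asIdeal)).Separable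

open Classical in
/-- The sum over the places `v` above `p`, of residue degree `f_v` dividing `k`, of `f_v` times the local trace of the power `k / f_v`. -/
noncomputable def frobTrace (t : HeightOneSpectrum (𝓞 K) → ℕ → ℝ) (p k : ℕ) : ℝ :=
  ∑ᶠ v : {v : HeightOneSpectrum (𝓞 K) // (p : 𝓞 K) ∈ v.asIdeal},
    if Nat.log p (Ideal.absNorm v.1.asIdeal) ∣ k then
      (Nat.log p (Ideal.absNorm v.1.asIdeal) : ℝ) * t v.1 (k / Nat.log p (Ideal.absNorm v.1.asIdeal))
    else 0

open Classical in
/-- The logarithm `∑ (frobTrace t p k) p^{-ks} / k` of the product of the Euler factors at the places above `p`, for local traces `t`; it is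
omitted if one of these places is not good. -/
noncomputable def logFactor (t : HeightOneSpectrum (𝓞 K) → ℕ → ℝ) (G : HeightOneSpectrum (𝓞 K) → Prop)
    (s : ℂ) (p : ℕ) : ℂ :=
  if ∃ v : HeightOneSpectrum (𝓞 K), (p : 𝓞 K) ∈ v.asIdeal ∧ ¬ G v then 0 else
    ∑' k : ℕ, (frobTrace t p (k + 1) : ℂ) / ((k : ℂ) + 1) * (p : ℂ) ^ (-(((k : ℂ) + 1) * s))

/-- The logarithm of the L-function. -/
noncomputable def logL (t : HeightOneSpectrum (𝓞 K) → ℕ → ℝ) (G : HeightOneSpectrum (𝓞 K) → Prop) (s : ℂ) : ℂ :=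
  ∑' p : Nat.Primes, logFactor t G s (p : ℕ)

/-- The L-function: the product of the Euler factors. -/
noncomputable def LSeries (t : HeightOneSpectrum (𝓞 K) → ℕ → ℝ) (G : HeightOneSpectrum (𝓞 K) → Prop) (s : ℂ) : ℂ :=
  ∏' p : Nat.Primes, Complex.exp (logFactor t G s (p : ℕ))

/-- The curve `y² = x³ + A(c) x + B(c)`, as a polynomial over `𝓞 K`. -/
noncomputable def curve (K : Type) [Field K] [NumberField K] {J : Type} (A B : MvPolynomial J ℤ) (c : J → ℤ) : (𝓞 K)[X] :=
  X ^ 3 + C ((MvPolynomial.eval c A : ℤ) : 𝓞 K) * X + C ((MvPolynomial.eval c B : ℤ) : 𝓞 K)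

variable {J : Type} [Fintype J] [DecidableEq J]

/-- Vectors of residue classes, one for each prime. -/
abbrev Residues (ι : Type) : Type := ∀ p : Nat.Primes, ι → ZMod (p : ℕ)

/-- The residue classes are independent and uniform. -/
noncomputable def uniform (ι : Type) [Fintype ι] [DecidableEq ι] : MeasureTheory.Measure (Residues ι) :=
  MeasureTheory.Measure.infinitePi fun p => (PMF.uniformOfFintype (ι → ZMod (p : ℕ))).toMeasure

/-- An integer vector in the residue class modulo `p`. -/
def lift {ι : Type} (x : Residues ι) (p : Nat.Primes) : ι → ℤ := fun i => ((x p i).val : ℤ)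

/-- The prime numbers up to `z`. -/
def primesUpTo (z : ℕ) : Finset Nat.Primes := (Finset.range (z + 1)).subtype Nat.Prime

/-- The logarithm of the random Euler product over the primes `p ≤ z`: the Euler factor at `p` is that of the member given by the
residue classes modulo `p`. -/
noncomputable def randomLog {ι : Type} (t : (ι → ℤ) → HeightOneSpectrum (𝓞 K) → ℕ → ℝ)
    (G : (ι → ℤ) → HeightOneSpectrum (𝓞 K) → Prop) (z : ℕ) (s : ℂ) (x : Residues ι) : ℂ :=
  ∑ p ∈ primesUpTo z, logFactor (t (lift x p)) (G (lift x p)) s (p : ℕ)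

/-- The rectangle `3/2 + 1/log N ≤ Re s ≤ 5/2`, `|Im s| ≤ T`. -/
def rectangle (N : ℕ) (T : ℝ) : Set ℂ :=
  {s | 3 / 2 + 1 / Real.log N ≤ s.re ∧ s.re ≤ 5 / 2 ∧ |s.im| ≤ T}

/-- `c` is the largest exponent of the generalised polynomial `∑ a_x t ^ x`; it is positive and not an
integer and has a positive coefficient. -/
def Admissible (F : Finset ℝ) (a : ℝ → ℝ) (c : ℝ) : Prop :=
  c ∈ F ∧ (∀ x ∈ F, x ≤ c) ∧ 0 < c ∧ (∀ m : ℕ, c ≠ m) ∧ 0 < a c

/-- The integer parts of the values at `n` of the generalised polynomials `∑ a_x t ^ x`, `x ∈ F k`. -/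
noncomputable def floors {J : Type} (F : J → Finset ℝ) (a : J → ℝ → ℝ) (n : ℕ) (k : J) : ℤ :=
  ⌊∑ x ∈ F k, a k x * (n : ℝ) ^ x⌋

/-- The functions `L n`, `n ∈ S`, are bounded on the average in the region `R`. -/
def BoundedOn (L : ℕ → ℂ → ℂ) (S : Finset ℕ) (R : Set ℂ) (C : ℝ) : Prop :=
  (∀ S' ⊆ S, ∀ u : ℕ → ℂ, (∀ n ∈ S', u n ∈ R) → ∑ n ∈ S', ‖L n (u n)‖ ^ 2 ≤ C * S.card) ∧
  (∀ δ : ℝ, 0 < δ → ∃ X ⊆ S, (X.card : ℝ) ≤ δ * S.card ∧
    ∀ n ∈ S \ X, ∀ u ∈ R, ‖L n u‖ ≤ Real.sqrt (C / δ))

/-- The joint distribution of the values `X N n k` for `n ∈ S N` tends to that of the `exp (Z k)`. -/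
def ConvergesTo {ι κ : Type} [Fintype ι] [DecidableEq ι] [Fintype κ] (S : ℕ → Finset ℕ) (X : ℕ → ℕ → κ → ℂ)
    (Z : κ → Residues ι → ℂ) : Prop :=
  (∀ G : (κ → ℂ) → ℝ, Continuous G → (∃ C : ℝ, ∀ y, |G y| ≤ C) →
    Tendsto (fun N : ℕ => (∑ n ∈ S N, G (X N n)) / (S N).card) atTop
      (𝓝 (∫ x, G (fun k => Complex.exp (Z k x)) ∂(uniform ι)))) ∧
  (∀ E : Set (κ → ℂ), MeasurableSet E → uniform ι {x | (fun k => Complex.exp (Z k x)) ∈ frontier E} = 0 →
    Tendsto (fun N : ℕ => (open Classical in ((S N).filter (fun n => X N n ∈ E)).card : ℝ) / (S N).card) atTop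
      (𝓝 ((uniform ι).real {x | (fun k => Complex.exp (Z k x)) ∈ E})))

/-- **The L-functions over a number field `K` of thin sequences of elliptic curves over `ℚ`: (1) the supremum near the line
`Re s = 3/2`, (2) the limit law up to this line.** -/
theorem result [Nonempty J] (A B : MvPolynomial J ℤ) (wt : J → ℕ) (m : ℕ) (hm : Odd m)
    (hA : ∀ (G : ℤ) (c : J → ℤ), MvPolynomial.eval (fun j => G ^ wt j * c j) A = G ^ (2 * m) * MvPolynomial.eval c A)
    (hB : ∀ (G : ℤ) (c : J → ℤ), MvPolynomial.eval (fun j => G ^ wt j * c j) B = G ^ (3 * m) * MvPolynomial.eval c B)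
    (hAB : ∃ c : J → ℤ, 4 * (MvPolynomial.eval c A) ^ 3 + 27 * (MvPolynomial.eval c B) ^ 2 ≠ 0)
    (P : J → Finset ℝ) (a : J → ℝ → ℝ) (e : J → ℝ) (h : ∀ k, Admissible (P k) (a k) (e k))
    (he : Function.Injective e) :
    (∀ (c : J → ℤ) (s : ℂ), 3 / 2 < s.re →
      LSeries (trace (curve K A B c)) (Good (curve K A B c)) s =
        Complex.exp (logL (trace (curve K A B c)) (Good (curve K A B c)) s)) ∧
    (∃ C : ℝ, 0 < C ∧ ∃ N₀ : ℕ, ∀ N : ℕ, N₀ ≤ N → ∀ T : ℝ, 0 ≤ T →
      BoundedOn (fun n => logL (trace (curve K A B (floors P a n))) (Good (curve K A B (floors P a n))))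
        (Finset.Ioc N (2 * N)) (rectangle N T) (C * (1 + T)) ∧
      BoundedOn (fun n => logL (trace (curve K A B (floors P a n))) (Good (curve K A B (floors P a n))))
        ((Finset.Ioc N (2 * N)).filter Nat.Prime) (rectangle N T) (C * (1 + T))) ∧
    ∀ {κ : Type} [Fintype κ] (s : κ → ℂ), (∀ k, 3 / 2 ≤ (s k).re) →
      ∃ Z : κ → Residues J → ℂ, (∀ k, Measurable (Z k)) ∧ (∀ k, Integrable (Z k) (uniform J)) ∧
        (∀ k, Tendsto (fun z : ℕ => ∫ x, ‖randomLog (fun c => trace (curve K A B c))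
          (fun c => Good (curve K A B c)) z (s k) x - Z k x‖ ∂(uniform J)) atTop (𝓝 0)) ∧
        ∀ σ : ℕ → κ → ℂ, (∀ k, Tendsto (fun N => σ N k) atTop (𝓝 (s k))) →
          (∀ k, Tendsto (fun N : ℕ => ((σ N k).re - 3 / 2) * Real.log N) atTop atTop) →
          ConvergesTo (fun N => Finset.Ioc N (2 * N))
            (fun N n k => LSeries (trace (curve K A B (floors P a n))) (Good (curve K A B (floors P a n))) (σ N k)) Z ∧
          ConvergesTo (fun N => (Finset.Ioc N (2 * N)).filter Nat.Prime)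
            (fun N n k => LSeries (trace (curve K A B (floors P a n))) (Good (curve K A B (floors P a n))) (σ N k)) Z := by
  set Φ : MvPolynomial (Option (Unit × ℕ)) ℝ := MvPolynomial.X (some ((), 0)) with hΦ
  set F' : Unit → (MvPolynomial J (𝓞 K))[X] := fun _ => Pool.Agent.N534.HC.Cub.cub K A B with hF
  have hwt : Pool.Agent.N534.HC.HasWt Φ 1 :=
    (Pool.Agent.N534.HC.Inst.hasWt_iff _ _).2 (MvPolynomial.isWeightedHomogeneous_X ℝ _ (some ((), 0)))
  have hAdm : ∀ i, Pool.Agent.N534.HC.Adm (F' i) := fun _ => Pool.Agent.N534.HC.Cub.adm_cub hAB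
  have hodd := Pool.Agent.N534.HC.Inst.oddMon_all (F := F') (wt := wt) (a := fun _ => m) (e := fun _ => 3 * m)
    (fun _ => Pool.Agent.N534.HC.Cub.scl_cub hA hB) (fun _ => (by decide : Odd 3).mul hm) hwt odd_one
  obtain ⟨D, hD⟩ := Pool.Agent.N534.HC.powH hwt hAdm hodd
  have hcmp := Pool.Agent.N534.HC.Inst.cmpH 1 Φ F'
  have hdeg : ∀ (c : J → ℤ) (v : HeightOneSpectrum (𝓞 K)),
      ((curve K A B c).map (Ideal.Quotient.mk v.asIdeal)).natDegree = 3 := by
    intro c v
    unfold curve
    rw [Polynomial.map_add, Polynomial.map_add, Polynomial.map_mul, Polynomial.map_pow, Polynomial.map_X,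
      Polynomial.map_C, Polynomial.map_C]
    exact Pool.Agent.N534.HC.Cub.deg_cubic _ _
  have hmem : ∀ c : J → ℤ, Pool.Agent.N534.HC.mem (Pool.Agent.N534.HC.Cub.cub K A B) c = curve K A B c :=
    Pool.Agent.N534.HC.Cub.mem_cub A B
  have ht : (fun c : J → ℤ => trace (curve K A B c)) = Pool.Agent.N534.HC.Inst.tH Φ F' := by
    funext c v k
    have h1 := Pool.Agent.N534.HC.Inst.trace_eq (curve K A B c) v k
    have h2 : Pool.Agent.N534.HC.Inst.tH Φ F' c v k =
        ((Pool.Agent.N534.HC.Inst.trace (curve K A B c) v k : ℤ) : ℝ) := by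
      unfold Pool.Agent.N534.HC.Inst.tH Pool.Agent.N534.HC.chv
      rw [hΦ, MvPolynomial.eval_X, h1, ← hmem]
      change ((Pool.Agent.N534.HC.trv v _ (k * (0 + 1)) : ℤ) : ℝ) = _
      rw [zero_add, mul_one]
      rfl
    rw [h2]
    unfold Pool.Agent.N534.HC.Inst.trace trace Pool.Agent.N534.HC.Inst.infinityCount
    rw [hdeg, if_pos (by decide : Odd 3)]
    push_cast
    have h3 : ∀ (k : Type) [Field k] (g : k[X]) (m : ℕ), Pool.Agent.N534.HC.Inst.affineCount k g m = affineCount k g m :=
      fun _ _ _ _ => rfl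
    rw [h3]
    ring
  have hg : (fun (c : J → ℤ) => Good (curve K A B c)) = Pool.Agent.N534.HC.Inst.gH F' := by
    funext c v
    apply propext
    unfold Pool.Agent.N534.HC.Inst.gH Pool.Agent.N534.HC.Gdv Pool.Agent.N534.HC.rmem
    have h3 : (F' ()).natDegree = 3 := Pool.Agent.N534.HC.Cub.deg_cubic _ _
    have h4 : ∀ i : Unit, Pool.Agent.N534.HC.mem (F' i) c = curve K A B c := fun _ => hmem c
    constructor
    · rintro ⟨h1, h2⟩ ⟨⟩
      rw [h4 (), h3]
      exact ⟨h1, hdeg c v, h2⟩
    · intro h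
      have := h ()
      rw [h4 ()] at this
      exact ⟨this.1, this.2.2⟩
  have main := Pool.Agent.N666.TM.St.thin_all hcmp hD h he
  rw [← ht, ← hg] at main
  have h32 : 1 + ((1 : ℕ) : ℝ) / 2 = 3 / 2 := by norm_num
  have hrect : ∀ (N : ℕ) (T : ℝ), Pool.Agent.N534.HC.St.rectangle 1 N T = rectangle N T := by
    intro N T
    unfold rectangle Pool.Agent.N534.HC.St.rectangle
    push_cast
    norm_num
  simp only [h32, hrect] at main
  exact main

end

end Pool.Agent.Results.MP_bf9450_nt.ThinRationalCurves
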